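import Mathlib
import Pool.Agent.MP_1e96f1_co.Defs
import Pool.Agent.MP_1e96f1_co.Octad
import Pool.Agent.BW.Beta

namespace Pool.Agent.Results.MP_1e96f1_co.BetaDesigns

open Pool.Agent.MP_1e96f1_co

universe u w

/-- **All `β(i)` designs with intermediate index.** There is a Steiner system `S(5, 8, 24)`; and every
`β(i)` design `(Ω, Bs)` with parameter `(v, k, d)`, `d > 0`, `1 < i < k - d`, is isomorphic to it or to
its complementary design: for every Steiner system `S(5, 8, 24)` with block set `S` on any point set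
`Ω'` there is a bijection `Ω ≃ Ω'` that carries the blocks to the blocks of `S` (then `i = 2` and the
parameter is `(24, 8, 4)`) or to the complements of the blocks of `S` (then `i = 3` and the parameter
is `(24, 16, 12)`). In other words, there is no `β(i)` design with `d > 0` and `1 < i < k - d` that is
isomorphic neither to `S(5, 8, 24)` nor to its complementary design. -/
theorem result :
    (∃ S : Finset (Finset (Fin 24)), IsS5824 S) ∧
    ∀ {Ω : Type u} [Fintype Ω] [DecidableEq Ω] (Bs : Finset (Finset Ω)) (v k d i : ℕ),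
      IsDesign Bs v k d → 0 < d → IsBeta Bs v d i → 1 < i → i < k - d →
      ∀ {Ω' : Type w} [Fintype Ω'] [DecidableEq Ω'] (S : Finset (Finset Ω')), IsS5824 S →
        (i = 2 ∧ v = 24 ∧ k = 8 ∧ d = 4 ∧ ∃ e : Ω ≃ Ω', S = Bs.image (fun B => B.image e)) ∨
        (i = 3 ∧ v = 24 ∧ k = 16 ∧ d = 12 ∧ ∃ e : Ω ≃ Ω', S = Bs.image (fun B => (B.image e)ᶜ)) :=
  ⟨Pool.Agent.BW.exists_S5824, fun _ _ _ _ _ hD hd hB hi hi' _ _ _ _ hS =>
    Pool.Agent.BW.beta_designs hD hd hB hi hi' hS⟩

end Pool.Agent.Results.MP_1e96f1_co.BetaDesigns
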